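import Pool.Agent.H69.Q1.Bridge
import Pool.Agent.H39.Q1.Sides

set_option autoImplicit false

/-! # The exploration path of a discrete domain reaches `β`

`DDomain.toLDom` : the label form (`LDom` of `H39.Q1.Sides`) of a discrete domain. The only
nontrivial point is that `α` and `β` are on the same contour. -/

open Set Filter
open Pool.Agent.H75.Perc (pv nx Co IsUnit4 InOrb)
open Pool.Agent.H75.TwoArm (plab fi du sh1)
open Pool.Agent.H69.Q1 hiding cor
open Pool.Agent.H39.Q1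

namespace Pool.Agent.H81.Q1

/-- A dual step not crossing `G`. -/
def DStep (G : Finset (ℤ × ℤ)) (u v : ℤ × ℤ) : Prop := IsUnit4 (v - u) ∧ u + v - (1, 1) ∉ G

lemma DStep.symm {G : Finset (ℤ × ℤ)} {u v : ℤ × ℤ} (h : DStep G u v) : DStep G v u := by
  obtain ⟨h1, h2⟩ := h
  refine ⟨?_, by rw [add_comm]; exact h2⟩
  unfold IsUnit4 at h1 ⊢
  simp only [Prod.ext_iff, Prod.fst_sub, Prod.snd_sub] at h1 ⊢
  omega

/-- Chains of dual steps which do not cross `G`. -/
abbrev DCo (G : Finset (ℤ × ℤ)) : (ℤ × ℤ) → (ℤ × ℤ) → Prop := Relation.ReflTransGen (DStep G)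

lemma DCo.symm {G : Finset (ℤ × ℤ)} {u v : ℤ × ℤ} (h : DCo G u v) : DCo G v u := by
  induction h with
  | refl => exact Relation.ReflTransGen.refl
  | tail _ h ih => exact Relation.ReflTransGen.head h.symm ih

lemma exists_du_of_dCo {G : Finset (ℤ × ℤ)} {u v : ℤ × ℤ} (h : DCo G u v) :
    ∃ F : Finset (ℤ × ℤ), Co (du F G) u v := by
  classical
  induction h with
  | refl => exact ⟨∅, Co.refl _ _⟩
  | @tail b c _ h ih =>
    obtain ⟨F, hF⟩ := ih
    refine ⟨insert (b + c - (1, 1)) F, ?_⟩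
    refine (hF.mono (du_mono_left (Finset.subset_insert _ _))).tail ⟨h.1, ?_⟩
    have h2 : sh1 (b + c - (1, 1)) = b + c := by
      change (b + c - (1, 1)) + (1, 1) = _
      rw [sub_add_cancel]
    unfold du
    exact Finset.mem_map.2 ⟨_, Finset.mem_sdiff.2 ⟨Finset.mem_insert_self _ _, h.2⟩, h2⟩

/-- moves in a half plane -/
lemma dCo_line {G : Finset (ℤ × ℤ)} {d : ℤ × ℤ} (hd : IsUnit4 d) (u : ℤ × ℤ) (n : ℕ)
    (h : ∀ i : ℕ, i < n → u + (i : ℤ) • d + (u + ((i : ℤ) + 1) • d) - (1, 1) ∉ G) :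
    DCo G u (u + (n : ℤ) • d) := by
  induction n with
  | zero => rw [Nat.cast_zero, zero_smul, add_zero]
  | succ n ih =>
    refine (ih (fun i hi => h i (by omega))).tail ⟨?_, ?_⟩
    · have : u + ((n + 1 : ℕ) : ℤ) • d - (u + (n : ℤ) • d) = d := by
        push_cast; rw [add_smul, one_smul]; abel
      rw [this]; exact hd
    · have := h n (by omega)
      push_cast
      exact this

/-- Two faces far from the origin are joined by a dual chain not crossing `G`. -/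
lemma exists_far (G : Finset (ℤ × ℤ)) : ∃ N : ℤ, ∀ u v : ℤ × ℤ, N ≤ |u.1| + |u.2| →
    N ≤ |v.1| + |v.2| → DCo G u v := by
  classical
  obtain ⟨M, hM0, hM⟩ : ∃ M : ℤ, 0 ≤ M ∧ ∀ l ∈ G, |l.1| ≤ M ∧ |l.2| ≤ M := by
    refine ⟨∑ l ∈ G, (|l.1| + |l.2|), Finset.sum_nonneg fun _ _ => by positivity, fun l hl => ?_⟩
    have := Finset.single_le_sum (f := fun l : ℤ × ℤ => |l.1| + |l.2|)
      (fun i _ => by positivity) hl
    constructor
    · have := abs_nonneg l.2; omega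
    · have := abs_nonneg l.1; omega
  have hG : ∀ l : ℤ × ℤ, (M < l.1 ∨ l.1 < -M ∨ M < l.2 ∨ l.2 < -M) → l ∉ G := by
    intro l h hl
    have h1 := hM l hl
    rw [abs_le, abs_le] at h1
    omega
  -- horizontal and vertical segments which stay outside the box
  have hor : ∀ (x x' y : ℤ), (M < 2 * y - 1 ∨ 2 * y - 1 < -M) ∨
      (M + 1 < 2 * x - 1 ∧ M + 1 < 2 * x' - 1) ∨ (2 * x < -M - 1 ∧ 2 * x' < -M - 1) →
      DCo G (x, y) (x', y) := by
    have key : ∀ (x x' y : ℤ), x ≤ x' → (M < 2 * y - 1 ∨ 2 * y - 1 < -M) ∨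
      (M + 1 < 2 * x - 1 ∧ M + 1 < 2 * x' - 1) ∨ (2 * x < -M - 1 ∧ 2 * x' < -M - 1) →
      DCo G (x, y) (x', y) := by
      intro x x' y hx h
      have h1 := dCo_line (G := G) (d := (1, 0)) (Or.inl rfl) (x, y) (x' - x).toNat ?_
      · have h2 : (x, y) + (((x' - x).toNat : ℕ) : ℤ) • ((1 : ℤ), (0 : ℤ)) = (x', y) := by
          rw [Int.toNat_of_nonneg (by omega)]
          simp
        rwa [h2] at h1
      · intro i hi
        refine hG _ ?_
        have h3 : (i : ℤ) < x' - x := by omega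
        simp only [Prod.fst_sub, Prod.fst_add, Prod.smul_fst, Prod.snd_sub, Prod.snd_add,
          Prod.smul_snd, smul_eq_mul, mul_one, mul_zero, add_zero]
        omega
    intro x x' y h
    rcases le_total x x' with h1 | h1
    · exact key x x' y h1 h
    · refine (key x' x y h1 ?_).symm
      omega
  have ver : ∀ (x y y' : ℤ), (M < 2 * x - 1 ∨ 2 * x - 1 < -M) ∨
      (M + 1 < 2 * y - 1 ∧ M + 1 < 2 * y' - 1) ∨ (2 * y < -M - 1 ∧ 2 * y' < -M - 1) →
      DCo G (x, y) (x, y') := by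
    have key : ∀ (x y y' : ℤ), y ≤ y' → (M < 2 * x - 1 ∨ 2 * x - 1 < -M) ∨
      (M + 1 < 2 * y - 1 ∧ M + 1 < 2 * y' - 1) ∨ (2 * y < -M - 1 ∧ 2 * y' < -M - 1) →
      DCo G (x, y) (x, y') := by
      intro x y y' hx h
      have h1 := dCo_line (G := G) (d := (0, 1)) (Or.inr (Or.inl rfl)) (x, y) (y' - y).toNat ?_
      · have h2 : (x, y) + (((y' - y).toNat : ℕ) : ℤ) • ((0 : ℤ), (1 : ℤ)) = (x, y') := by
          rw [Int.toNat_of_nonneg (by omega)]
          simp
        rwa [h2] at h1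
      · intro i hi
        refine hG _ ?_
        have h3 : (i : ℤ) < y' - y := by omega
        simp only [Prod.fst_sub, Prod.fst_add, Prod.smul_fst, Prod.snd_sub, Prod.snd_add,
          Prod.smul_snd, smul_eq_mul, mul_one, mul_zero, add_zero]
        omega
    intro x y y' h
    rcases le_total y y' with h1 | h1
    · exact key x y y' h1 h
    · refine (key x y' y h1 ?_).symm
      omega
  -- every far face is joined to the corner `(M + 3, M + 3)`
  refine ⟨2 * (M + 3), fun u v hu hv => ?_⟩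
  have main : ∀ u : ℤ × ℤ, 2 * (M + 3) ≤ |u.1| + |u.2| → DCo G u (M + 3, M + 3) := by
    rintro ⟨x, y⟩ hu
    simp only at hu
    by_cases hy : M + 3 ≤ y ∨ y ≤ -(M + 3)
    · exact (hor x (M + 3) y (by omega)).trans (ver (M + 3) y (M + 3) (by omega))
    · have hx : M + 3 ≤ x ∨ x ≤ -(M + 3) := by
        rcases abs_cases x with ⟨h1, _⟩ | ⟨h1, _⟩ <;> rcases abs_cases y with ⟨h2, _⟩ | ⟨h2, _⟩ <;>
          omega
      exact (ver x y (M + 3) (by omega)).trans (hor x (M + 3) (M + 3) (by omega))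
  exact (main u hu).trans (main v hv).symm

section domain

variable (X : DDomain)

/-- Labels of the edges of the discrete domain. -/
noncomputable def LabE : Finset (ℤ × ℤ) := (X.finE.image lb).toFinset

lemma coe_LabE : (LabE X : Set (ℤ × ℤ)) = lb '' X.E := by
  unfold LabE; rw [Set.Finite.coe_toFinset]

lemma mem_LabE {l : ℤ × ℤ} : l ∈ LabE X ↔ ∃ e ∈ X.E, lb e = l := by
  unfold LabE; rw [Set.Finite.mem_toFinset]; rfl

lemma subZ2 : X.E ⊆ Z2.edgeSet := X.subE.trans (edges_sub _)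

lemma lb_mem_LabE {e : Sym2 (ℤ × ℤ)} (he : e ∈ Z2.edgeSet) : lb e ∈ LabE X ↔ e ∈ X.E := by
  rw [mem_LabE]
  constructor
  · rintro ⟨e', h1, h2⟩
    rwa [← lb_injOn (subZ2 X h1) he h2]
  · intro h; exact ⟨e, h, rfl⟩

lemma odd_LabE {l : ℤ × ℤ} (h : l ∈ LabE X) : (l.1 + l.2) % 2 = 1 := by
  obtain ⟨e, he, rfl⟩ := (mem_LabE X).1 h
  exact odd_lb (subZ2 X he)

/-- The vertices of the domain are joined by its labels. -/
lemma co_LabE {u v : ℤ × ℤ} (hu : u ∈ X.V) (hv : v ∈ X.V) : Co (LabE X) u v := by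
  have h := X.conn u hu v hv
  induction h with
  | refl => exact Co.refl _ _
  | @tail b c _ hbc ih =>
    have h1 := subZ2 X hbc
    have h2 : b ∈ X.V := (X.subE hbc).2 b (by simp)
    refine (ih h2).tail ⟨?_, (lb_mem_LabE X h1).2 hbc⟩
    have h3 := isUnit_of_adj h1
    unfold IsUnit4
    simp only [Prod.ext_iff, Prod.fst_sub, Prod.snd_sub, Prod.fst_add, Prod.snd_add] at h3 ⊢
    omega

lemma dStep_of_faceStep {f g : ℤ × ℤ} (h : faceStep X.E f g) :
    DStep (LabE X) (f.1 + 1, f.2 + 1) (g.1 + 1, g.2 + 1) := by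
  have key : ∀ u v : ℤ × ℤ, v = u + (1, 0) ∨ v = u + (0, 1) → s(u, v) ∉ X.E →
      u + v ∉ LabE X := by
    intro u v h1 h2 h3
    refine h2 ((lb_mem_LabE X (e := s(u, v)) ?_).1 h3)
    rw [SimpleGraph.mem_edgeSet, adj_iff_isUnit]
    rcases h1 with h1 | h1
    · exact Or.inl h1
    · exact Or.inr (Or.inl h1)
  obtain ⟨f1, f2⟩ := f
  obtain ⟨g1, g2⟩ := g
  unfold faceStep at h
  simp only [Prod.mk.injEq] at h
  rcases h with ⟨⟨rfl, rfl⟩, h⟩ | ⟨⟨rfl, rfl⟩, h⟩ | ⟨⟨rfl, rfl⟩, h⟩ | ⟨⟨rfl, rfl⟩, h⟩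
  · refine ⟨?_, ?_⟩
    · left; simp
    · have := key _ _ (Or.inr (by simp)) h
      refine fun h5 => this ?_
      convert h5 using 1
      ext <;> simp only [Prod.fst_sub, Prod.fst_add, Prod.snd_sub, Prod.snd_add] <;> ring
  · refine ⟨?_, ?_⟩
    · right; right; left; simp
    · have := key _ _ (Or.inr (by simp)) h
      refine fun h5 => this ?_
      convert h5 using 1
      ext <;> simp only [Prod.fst_sub, Prod.fst_add, Prod.snd_sub, Prod.snd_add] <;> ring
  · refine ⟨?_, ?_⟩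
    · right; left; simp
    · have := key _ _ (Or.inl (by simp)) h
      refine fun h5 => this ?_
      convert h5 using 1
      ext <;> simp only [Prod.fst_sub, Prod.fst_add, Prod.snd_sub, Prod.snd_add] <;> ring
  · refine ⟨?_, ?_⟩
    · right; right; right; simp
    · have := key _ _ (Or.inl (by simp)) h
      refine fun h5 => this ?_
      convert h5 using 1
      ext <;> simp only [Prod.fst_sub, Prod.fst_add, Prod.snd_sub, Prod.snd_add] <;> ring

lemma dCo_of_faceStep {f g : ℤ × ℤ} (h : Relation.ReflTransGen (faceStep X.E) f g) :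
    DCo (LabE X) (f.1 + 1, f.2 + 1) (g.1 + 1, g.2 + 1) := by
  induction h with
  | refl => exact Relation.ReflTransGen.refl
  | tail _ h ih => exact ih.tail (dStep_of_faceStep X h)

/-- The faces of two outer corners are joined by a dual chain which does not cross the domain. -/
lemma dCo_outer {c c' : Corner} (h : IsOuter X.E c) (h' : IsOuter X.E c') :
    DCo (LabE X) (fi (Pool.Agent.H69.Q1.cor c)) (fi (Pool.Agent.H69.Q1.cor c')) := by
  obtain ⟨N, hN⟩ := exists_far (LabE X)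
  obtain ⟨g, h1, h2⟩ := h (N + 2)
  obtain ⟨g', h1', h2'⟩ := h' (N + 2)
  rw [fi_cor, fi_cor]
  have h3 := dCo_of_faceStep X h1
  have h3' := dCo_of_faceStep X h1'
  refine (h3.trans (hN _ _ ?_ ?_)).trans h3'.symm
  · simp only
    rcases abs_cases g.1 with ⟨e1, _⟩ | ⟨e1, _⟩ <;> rcases abs_cases g.2 with ⟨e2, _⟩ | ⟨e2, _⟩ <;>
      rcases abs_cases (g.1 + 1) with ⟨e3, _⟩ | ⟨e3, _⟩ <;>
      rcases abs_cases (g.2 + 1) with ⟨e4, _⟩ | ⟨e4, _⟩ <;> omega
  · simp only
    rcases abs_cases g'.1 with ⟨e1, _⟩ | ⟨e1, _⟩ <;>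
      rcases abs_cases g'.2 with ⟨e2, _⟩ | ⟨e2, _⟩ <;>
      rcases abs_cases (g'.1 + 1) with ⟨e3, _⟩ | ⟨e3, _⟩ <;>
      rcases abs_cases (g'.2 + 1) with ⟨e4, _⟩ | ⟨e4, _⟩ <;> omega

/-- Two outer corners of the domain are on the same contour. -/
theorem inOrb_outer {c c' : Corner} (hc : c.1 ∈ X.V) (hc' : c'.1 ∈ X.V) (h : IsOuter X.E c)
    (h' : IsOuter X.E c') :
    InOrb (pv (LabE X)) (Pool.Agent.H69.Q1.cor c) (Pool.Agent.H69.Q1.cor c') := by
  obtain ⟨F, hF⟩ := exists_du_of_dCo (dCo_outer X h h')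
  refine inOrb_pv_iff.2 (inOrb_of_co (E := F) _ ?_ hF)
  rw [vx_cor, vx_cor]
  exact co_LabE X hc hc'

/-- **The discrete domain in label form.** -/
noncomputable def _root_.Pool.Agent.H81.Q1.DDomain.toLDom : LDom where
  G := LabE X
  α := Pool.Agent.H69.Q1.cor X.α
  β := Pool.Agent.H69.Q1.cor X.β
  ne := fun h => X.ne (by rw [cor_injective h])
  orb := inOrb_outer X X.memβ X.memα X.outβ X.outα

@[simp] lemma toLDom_G : X.toLDom.G = LabE X := rfl
@[simp] lemma toLDom_α : X.toLDom.α = Pool.Agent.H69.Q1.cor X.α := rfl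
@[simp] lemma toLDom_β : X.toLDom.β = Pool.Agent.H69.Q1.cor X.β := rfl

/-- The contour of the domain in label form. -/
lemma cor_contour (c : Corner) (i : ℕ) :
    Pool.Agent.H69.Q1.cor ((next X.E)^[i] c) = (pv (LabE X))^[i] (Pool.Agent.H69.Q1.cor c) :=
  cor_next_iter (subZ2 X) (coe_LabE X) c i

lemma toLDom_Wd : X.toLDom.Wd = WL X := by
  ext l
  rw [LDom.mem_Wd, mem_WL]
  constructor
  · rintro ⟨h1, i, h2, h3⟩
    refine ⟨((next X.E)^[i] X.β).edge, ⟨?_, (next X.E)^[i] X.β, ⟨i, ?_, rfl⟩, ?_, rfl⟩, ?_⟩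
    · rw [← lb_mem_LabE X (corner_edge_mem _), ← plab_cor, cor_contour]
      rw [h3] at h1
      exact h1
    · intro j hj h4
      refine h2 j hj.le ?_
      simp only [toLDom_G, toLDom_α, toLDom_β]
      rw [← cor_contour, h4]
    · intro h4
      refine h2 i le_rfl ?_
      simp only [toLDom_G, toLDom_α, toLDom_β]
      rw [← cor_contour, h4]
    · rw [← plab_cor, cor_contour]
      exact h3.symm
  · rintro ⟨e, ⟨h1, c, ⟨i, h2, rfl⟩, h3, rfl⟩, rfl⟩
    refine ⟨(lb_mem_LabE X (corner_edge_mem _)).2 h1, i, ?_, ?_⟩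
    · intro j hj h4
      simp only [toLDom_G, toLDom_α, toLDom_β] at h4
      rw [← cor_contour] at h4
      have h5 := cor_injective h4
      rcases hj.lt_or_eq with h6 | h6
      · exact h2 j h6 h5
      · subst h6; exact h3 h5
    · rw [← plab_cor, cor_contour]
      rfl

lemma toLDom_Fr : X.toLDom.Fr = EL X := by
  unfold LDom.Fr
  rw [toLDom_Wd]
  ext l
  rw [Finset.mem_sdiff, mem_EL, mem_WL]
  change l ∈ LabE X ∧ _ ↔ _
  rw [mem_LabE]
  constructor
  · rintro ⟨⟨e, he, rfl⟩, h2⟩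
    exact ⟨e, ⟨he, fun h => h2 ⟨e, h, rfl⟩⟩, rfl⟩
  · rintro ⟨e, ⟨he, h1⟩, rfl⟩
    refine ⟨⟨e, he, rfl⟩, ?_⟩
    rintro ⟨e', he', h2⟩
    rw [lb_injOn (subZ2 X he'.1) (subZ2 X he) h2] at he'
    exact h1 he'

/-- The environment of a discrete domain. -/
noncomputable def _root_.Pool.Agent.H81.Q1.DDomain.toDEnv : DEnv := X.toLDom.toDEnv

@[simp] lemma toDEnv_E : X.toDEnv.E = EL X := toLDom_Fr X
@[simp] lemma toDEnv_W : X.toDEnv.W = WL X := toLDom_Wd X
@[simp] lemma toDEnv_α : X.toDEnv.α = Pool.Agent.H69.Q1.cor X.α := rfl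
@[simp] lemma toDEnv_β : X.toDEnv.β = Pool.Agent.H69.Q1.cor X.β := rfl

/-- **The exploration path reaches `β`** for every set of open free edges. -/
theorem reaches {ω : Set (Sym2 (ℤ × ℤ))} (hω : ω ⊆ X.free) :
    ∃ i, X.corner ω i = X.β := by
  classical
  have hfin : ω.Finite := X.finite_free.subset hω
  set S : Finset (ℤ × ℤ) := (hfin.image lb).toFinset with hS
  have hS' : (S : Set (ℤ × ℤ)) = lb '' ω := by rw [hS, Set.Finite.coe_toFinset]
  have hSE : S ⊆ X.toDEnv.E := by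
    rw [toDEnv_E]
    intro l hl
    rw [← Finset.mem_coe, hS'] at hl
    obtain ⟨e, he, rfl⟩ := hl
    exact (mem_EL X).2 ⟨e, hω he, rfl⟩
  obtain ⟨i, hi⟩ := X.toDEnv.reach S hSE
  refine ⟨i, cor_injective ?_⟩
  have hw : ω ∪ X.arc ⊆ Z2.edgeSet :=
    Set.union_subset (hω.trans (X.free_sub.trans (subZ2 X))) (X.arc_sub.trans (subZ2 X))
  have hL : ((S ∪ WL X : Finset (ℤ × ℤ)) : Set (ℤ × ℤ)) = lb '' (ω ∪ X.arc) := by
    rw [Finset.coe_union, coe_WL, hS', Set.image_union]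
  have h1 := cor_next_iter hw hL X.α i
  rw [toDEnv_W] at hi
  exact h1.trans hi

lemma corner_len {ω : Set (Sym2 (ℤ × ℤ))} (hω : ω ⊆ X.free) : X.corner ω (X.len ω) = X.β :=
  Nat.sInf_mem (s := {i | X.corner ω i = X.β}) (reaches X hω)

end domain

end Pool.Agent.H81.Q1
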