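import Pool.Agent.H81.Q1.Reduction

set_option autoImplicit false
open Set Topology MeasureTheory Filter
open scoped unitInterval BoundedContinuousFunction NNReal

/-! Second form of the reduction of Q1: tightness + convergence of the integrals of bounded
Lipschitz functions along every approximating sequence. -/

namespace Pool.Agent.H81.Q1

variable {D : Set ℂ} {a b : ℂ} {A₁ A₂ : Set ℂ}

/-- Interleaving of two sequences. -/
def inter {T : Type} (f g : ℕ → T) (n : ℕ) : T := if n % 2 = 0 then f (n / 2) else g (n / 2)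

lemma inter_even {T : Type} (f g : ℕ → T) (n : ℕ) : inter f g (2 * n) = f n := by
  unfold inter
  rw [if_pos (by omega)]
  congr 1
  omega

lemma inter_odd {T : Type} (f g : ℕ → T) (n : ℕ) : inter f g (2 * n + 1) = g n := by
  unfold inter
  rw [if_neg (by omega)]
  congr 1
  omega

lemma eventually_inter {T : Type} {f g : ℕ → T} {P : T → Prop} (hf : ∀ᶠ n in atTop, P (f n))
    (hg : ∀ᶠ n in atTop, P (g n)) : ∀ᶠ n in atTop, P (inter f g n) := by
  obtain ⟨N, hN⟩ := eventually_atTop.1 hf
  obtain ⟨M, hM⟩ := eventually_atTop.1 hg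
  refine eventually_atTop.2 ⟨2 * (N + M), fun n hn => ?_⟩
  unfold inter
  split_ifs
  · exact hN _ (by omega)
  · exact hM _ (by omega)

lemma map_inter {T S : Type} (φ : T → S) (f g : ℕ → T) (n : ℕ) :
    φ (inter f g n) = inter (fun i => φ (f i)) (fun i => φ (g i)) n := by
  unfold inter
  split_ifs <;> rfl

lemma tendsto_inter {S : Type} {f g : ℕ → S} {l : Filter S} (hf : Tendsto f atTop l)
    (hg : Tendsto g atTop l) : Tendsto (inter f g) atTop l := fun _ hU =>
  eventually_inter (hf.eventually hU) (hg.eventually hU)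

/-- The data of an approximating sequence. -/
def Approx.dat (A : Approx D a b A₁ A₂) (n : ℕ) : ℝ × DDomain := (A.δ n, A.X n)

/-- Interleaving of two approximating sequences. -/
def Approx.merge (A B : Approx D a b A₁ A₂) : Approx D a b A₁ A₂ where
  δ := fun n => (inter A.dat B.dat n).1
  X := fun n => (inter A.dat B.dat n).2
  pos := fun n => by
    unfold inter
    split_ifs
    · exact A.pos _
    · exact B.pos _
  lim := by
    have h : (fun n => (inter A.dat B.dat n).1) = inter A.δ B.δ := by
      funext n; exact map_inter Prod.fst A.dat B.dat n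
    rw [h]; exact tendsto_inter A.lim B.lim
  fill := fun K hK hKD => eventually_inter (P := fun p : ℝ × DDomain =>
    (∀ v, pt p.1 v ∈ K → v ∈ p.2.V) ∧ edges {v | pt p.1 v ∈ K} ⊆ p.2.E) (A.fill K hK hKD)
    (B.fill K hK hKD)
  sub := fun ε hε => eventually_inter (P := fun p : ℝ × DDomain =>
    ∀ v ∈ p.2.V, Metric.infDist (pt p.1 v) D < ε) (A.sub ε hε) (B.sub ε hε)
  limα := by
    have h : (fun n => pt (inter A.dat B.dat n).1 (inter A.dat B.dat n).2.α.1) =
        inter (fun n => pt (A.δ n) (A.X n).α.1) (fun n => pt (B.δ n) (B.X n).α.1) := by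
      funext n; exact map_inter (fun p : ℝ × DDomain => pt p.1 p.2.α.1) A.dat B.dat n
    rw [h]; exact tendsto_inter A.limα B.limα
  limβ := by
    have h : (fun n => pt (inter A.dat B.dat n).1 (inter A.dat B.dat n).2.β.1) =
        inter (fun n => pt (A.δ n) (A.X n).β.1) (fun n => pt (B.δ n) (B.X n).β.1) := by
      funext n; exact map_inter (fun p : ℝ × DDomain => pt p.1 p.2.β.1) A.dat B.dat n
    rw [h]; exact tendsto_inter A.limβ B.limβ
  wired := fun ε hε => eventually_inter (P := fun p : ℝ × DDomain =>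
    ∀ c ∈ p.2.wired, Metric.infDist (pt p.1 c.1) A₁ < ε) (A.wired ε hε) (B.wired ε hε)
  dual := fun ε hε => eventually_inter (P := fun p : ℝ × DDomain =>
    ∀ c ∈ p.2.dual, Metric.infDist (pt p.1 c.1) A₂ < ε) (A.dual ε hε) (B.dual ε hε)

lemma merge_law_even (A B : Approx D a b A₁ A₂) (n : ℕ) : (A.merge B).law (2 * n) = A.law n := by
  change DDomain.law (inter A.dat B.dat (2 * n)).2 (inter A.dat B.dat (2 * n)).1 = _
  rw [inter_even]
  rfl

lemma merge_law_odd (A B : Approx D a b A₁ A₂) (n : ℕ) :
    (A.merge B).law (2 * n + 1) = B.law n := by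
  change DDomain.law (inter A.dat B.dat (2 * n + 1)).2 (inter A.dat B.dat (2 * n + 1)).1 = _
  rw [inter_odd]
  rfl

/-- A statement about limits along every approximating sequence gives limits which do not depend
on the sequence. -/
theorem exists_common_limit {S : Type} [TopologicalSpace S] [T2Space S]
    (F : ProbabilityMeasure Curve → S)
    (h : ∀ A : Approx D a b A₁ A₂, ∃ l, Tendsto (fun n => F (A.law n)) atTop (𝓝 l))
    (A B : Approx D a b A₁ A₂) {l l' : S} (hA : Tendsto (fun n => F (A.law n)) atTop (𝓝 l))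
    (hB : Tendsto (fun n => F (B.law n)) atTop (𝓝 l')) : l = l' := by
  obtain ⟨m, hm⟩ := h (A.merge B)
  have h1 : Tendsto (fun n : ℕ => 2 * n) atTop atTop :=
    tendsto_atTop_mono (f := id) (fun n => by simp only [id]; omega) tendsto_id
  have h2 : Tendsto (fun n : ℕ => 2 * n + 1) atTop atTop :=
    tendsto_atTop_mono (f := id) (fun n => by simp only [id]; omega) tendsto_id
  have h3 := hm.comp h1
  have h4 := hm.comp h2
  have e3 : (fun n => F ((A.merge B).law n)) ∘ (fun n : ℕ => 2 * n) = fun n => F (A.law n) := by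
    funext n; simp only [Function.comp_apply, merge_law_even]
  have e4 : (fun n => F ((A.merge B).law n)) ∘ (fun n : ℕ => 2 * n + 1) =
      fun n => F (B.law n) := by
    funext n; simp only [Function.comp_apply, merge_law_odd]
  rw [e3] at h3
  rw [e4] at h4
  exact (tendsto_nhds_unique hA h3).trans (tendsto_nhds_unique hB h4).symm

/-- Bounded Lipschitz functions determine a finite Borel measure. -/
theorem eq_of_lipschitz {X : Type} [PseudoMetricSpace X] [MeasurableSpace X] [BorelSpace X]
    {μ ν : ProbabilityMeasure X}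
    (h : ∀ f : X → ℝ, (∃ K, LipschitzWith K f) → (∀ x, 0 ≤ f x ∧ f x ≤ 1) →
      ∫ x, f x ∂(μ : Measure X) = ∫ x, f x ∂(ν : Measure X)) : μ = ν := by
  have key : ∀ F : Set X, IsClosed F → (μ : Measure X) F = (ν : Measure X) F := by
    intro F hF
    have hpos : ∀ n : ℕ, 0 < 1 / ((n : ℝ) + 1) := fun n => Nat.one_div_pos_of_nat
    have hlim : Tendsto (fun n : ℕ => 1 / ((n : ℝ) + 1)) atTop (𝓝 0) :=
      tendsto_one_div_add_atTop_nhds_zero_nat
    have h1 := tendsto_integral_thickenedIndicator_of_isClosed (μ := (μ : Measure X)) hF hpos hlim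
    have h2 := tendsto_integral_thickenedIndicator_of_isClosed (μ := (ν : Measure X)) hF hpos hlim
    have h3 : (fun n : ℕ => ∫ x, (thickenedIndicator (hpos n) F x : ℝ) ∂(μ : Measure X)) =
        fun n : ℕ => ∫ x, (thickenedIndicator (hpos n) F x : ℝ) ∂(ν : Measure X) := by
      funext n
      have hc : LipschitzWith 1 (fun x : ℝ≥0 => (x : ℝ)) :=
        LipschitzWith.of_dist_le_mul fun x y => by rw [NNReal.coe_one, one_mul]; rfl
      refine h _ ⟨_, hc.comp
        (lipschitzWith_thickenedIndicator (hpos n) F)⟩ fun x => ⟨NNReal.coe_nonneg _, ?_⟩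
      exact_mod_cast thickenedIndicator_le_one (hpos n) F x
    rw [h3] at h1
    have h4 := tendsto_nhds_unique h1 h2
    exact (measureReal_eq_measureReal_iff).1 h4
  have h5 : (μ : Measure X) = (ν : Measure X) :=
    ext_of_generate_finite {F : Set X | IsClosed F} (by
      rw [BorelSpace.measurable_eq (α := X)]; exact borel_eq_generateFrom_isClosed)
      isPiSystem_isClosed (fun F hF => key F hF) (by simp)
  exact Subtype.ext h5

/-- **Second reduction of Q1.** It is enough to prove that along every approximating sequence the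
laws are tight and the integrals of bounded Lipschitz functions converge. -/
theorem Q1_of_conv
    (ht : ∀ (D : Set ℂ), IsJordanDomain D → ∀ (a b : ℂ) (A₁ A₂ : Set ℂ), a ≠ b →
      IsArcs D a b A₁ A₂ → ∀ A : Approx D a b A₁ A₂,
        IsTightMeasureSet {((A.law n : ProbabilityMeasure Curve) : Measure Curve) | n})
    (hc : ∀ (D : Set ℂ), IsJordanDomain D → ∀ (a b : ℂ) (A₁ A₂ : Set ℂ), a ≠ b →
      IsArcs D a b A₁ A₂ → ∀ (A : Approx D a b A₁ A₂) (f : Curve → ℝ), (∃ K, LipschitzWith K f) →
        (∀ γ, 0 ≤ f γ ∧ f γ ≤ 1) →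
        ∃ l, Tendsto (fun n => ∫ γ, f γ ∂(A.law n : Measure Curve)) atTop (𝓝 l)) : Q1 := by
  refine Q1_of ht ?_
  intro D hD a b A₁ A₂ hab hA A B ν ν' hν hν'
  refine eq_of_lipschitz fun f hf hf1 => ?_
  have hcont : Continuous f := by
    obtain ⟨K, hK⟩ := hf
    exact hK.continuous
  let g : Curve →ᵇ ℝ := BoundedContinuousFunction.ofNormedAddCommGroup f hcont 1 fun x => by
    rw [Real.norm_eq_abs, abs_of_nonneg (hf1 x).1]; exact (hf1 x).2
  refine exists_common_limit (fun μ : ProbabilityMeasure Curve => ∫ γ, f γ ∂(μ : Measure Curve))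
    (fun A' => hc D hD a b A₁ A₂ hab hA A' f hf hf1) A B ?_ ?_
  · exact (ProbabilityMeasure.tendsto_iff_forall_integral_tendsto.1 hν) g
  · exact (ProbabilityMeasure.tendsto_iff_forall_integral_tendsto.1 hν') g

end Pool.Agent.H81.Q1
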