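import Pool.Agent.H81.Q1.Reduction2
import Pool.Agent.H81.Q1.Term
import Pool.Agent.H57.Q1.Explore

set_option autoImplicit false

/-! Tools for the use of the law of the exploration path:

* `integral_law` : integrals against the law are expectations over uniformly random sets of labels;
* `conv_of_approx` : convergence of the integrals from an approximation by convergent expectations;
* `dist_coarse` : a polygonal line is close to the polygonal line through a subsequence of its
  vertices. -/

open Set Topology MeasureTheory Filter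
open Pool.Agent.H69.Q1 (EL WL expl law_apply)
open Pool.Agent.H75.Perc (Pr Pr_eq)
open Pool.Agent.H99.NC (Ex wt)
open scoped unitInterval

namespace Pool.Agent.H81.Q1

/-- The exploration path as a function of the set of open free labels. -/
noncomputable def DDomain.gamma (X : DDomain) (δ : ℝ) (ω : Finset (ℤ × ℤ)) : Curve :=
  expl δ (ω ∪ WL X) (Pool.Agent.H69.Q1.cor X.α) (Pool.Agent.H69.Q1.cor X.β)

lemma wt_half {E ω : Finset (ℤ × ℤ)} (h : ω ⊆ E) :
    wt (fun _ => 1 / 2) E ω = (1 / 2 : ℝ) ^ E.card := by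
  unfold wt
  have h1 : ∏ e ∈ E \ ω, (1 - (fun _ : ℤ × ℤ => (1 / 2 : ℝ)) e) = (1 / 2 : ℝ) ^ (E \ ω).card := by
    rw [← Finset.prod_const]
    exact Finset.prod_congr rfl fun _ _ => by norm_num
  rw [h1, Finset.prod_const, ← pow_add, Finset.card_sdiff_of_subset h,
    Nat.add_sub_cancel' (Finset.card_le_card h)]

/-- The law is a finite sum of point masses. -/
theorem law_eq_sum (X : DDomain) (δ : ℝ) : (X.law δ : Measure Curve) =
    ∑ ω ∈ (EL X).powerset, ENNReal.ofReal ((1 / 2 : ℝ) ^ (EL X).card) •
      Measure.dirac (X.gamma δ ω) := by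
  classical
  ext S hS
  have h1 := law_apply X δ hS
  have h2 : ((∑ ω ∈ (EL X).powerset, ENNReal.ofReal ((1 / 2 : ℝ) ^ (EL X).card) •
      Measure.dirac (X.gamma δ ω)) : Measure Curve) S =
      ENNReal.ofReal (Pr (EL X) (fun ω => X.gamma δ ω ∈ S)) := by
    rw [Measure.coe_finsetSum, Finset.sum_apply]
    simp only [Measure.smul_apply, Measure.dirac_apply' _ hS, smul_eq_mul]
    rw [Pr_eq, ← Finset.mul_sum]
    have h3 : ∑ ω ∈ (EL X).powerset, S.indicator (1 : Curve → ENNReal) (X.gamma δ ω) =
        (((EL X).powerset.filter (fun ω => X.gamma δ ω ∈ S)).card : ENNReal) := by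
      rw [Finset.card_filter]
      push_cast
      refine Finset.sum_congr rfl fun ω _ => ?_
      by_cases h : X.gamma δ ω ∈ S
      · rw [Set.indicator_of_mem h, if_pos h]; rfl
      · rw [Set.indicator_of_notMem h, if_neg h]
    rw [h3, mul_comm, div_eq_mul_inv
      (((EL X).powerset.filter (fun ω => X.gamma δ ω ∈ S)).card : ℝ),
      ENNReal.ofReal_mul (Nat.cast_nonneg _), ENNReal.ofReal_natCast]
    congr 2
    rw [one_div, inv_pow]
  rw [h2, ← ENNReal.toReal_eq_toReal_iff' (measure_ne_top _ _) ENNReal.ofReal_ne_top, h1,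
    ENNReal.toReal_ofReal (Pool.Agent.H75.Perc.Pr_nonneg _ _)]
  rfl

/-- **Integrals against the law of the exploration path.** -/
theorem integral_law (X : DDomain) (δ : ℝ) {f : Curve → ℝ} (hf : Continuous f) :
    ∫ γ, f γ ∂(X.law δ : Measure Curve) =
      Ex (fun _ => 1 / 2) (EL X) (fun ω => f (X.gamma δ ω)) := by
  rw [law_eq_sum, integral_finsetSum_measure]
  · unfold Ex
    refine Finset.sum_congr rfl fun ω hω => ?_
    rw [integral_smul_measure, integral_dirac' _ _ hf.stronglyMeasurable,
      wt_half (Finset.mem_powerset.1 hω), ENNReal.toReal_ofReal (by positivity), smul_eq_mul]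
  · intro ω _
    refine Integrable.smul_measure ?_ ENNReal.ofReal_ne_top
    exact (integrable_dirac' hf.stronglyMeasurable (by simp))

/-- A piece of a polygonal line stays in a ball which contains its vertices. -/
lemma polyline_mem {p : ℕ → ℂ} {n a b : ℕ} (hn : 0 < n) (hb : b ≤ n) {c : ℂ} {ε : ℝ}
    (h : ∀ k, a ≤ k → k ≤ b → dist (p k) c ≤ ε) {x : I} (h1 : (a : ℝ) ≤ n * x)
    (h2 : (n : ℝ) * x ≤ b) : dist ((polyline p n).toC x) c ≤ ε := by
  have hn' : (0 : ℝ) < n := by exact_mod_cast hn
  rcases lt_or_eq_of_le x.2.2 with hx | hx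
  · obtain ⟨k, hk, h3, h4⟩ := Pool.Agent.H57.Q1.exists_piece hn x.2.1 hx
    rw [Pool.Agent.H57.Q1.polyline_piece hk h3 h4.le]
    have h5 : a ≤ k := by
      have : (a : ℝ) < k + 1 := by linarith
      exact_mod_cast Nat.lt_succ_iff.1 (by exact_mod_cast this)
    rcases lt_or_ge k b with h6 | h6
    · have h7 : p k + (((n : ℝ) * x - k : ℝ) : ℂ) * (p (k + 1) - p k) ∈ Metric.closedBall c ε := by
        have h8 := (convex_closedBall c ε) (x := p k) (y := p (k + 1)) (h k h5 h6.le)
          (h (k + 1) (by omega) (by omega)) (a := 1 - ((n : ℝ) * x - k)) (b := (n : ℝ) * x - k)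
          (by linarith) (by linarith) (by ring)
        convert h8 using 1
        simp only [Complex.real_smul]
        push_cast
        ring
      exact h7
    · have h7 : (b : ℝ) ≤ k := by exact_mod_cast h6
      have h8 : (n : ℝ) * x - k = 0 := by linarith
      have h9 : k = b := by
        have : (k : ℝ) ≤ b := by linarith
        exact le_antisymm (by exact_mod_cast this) h6
      rw [h8, Complex.ofReal_zero, zero_mul, add_zero]
      exact h k h5 h9.le
  · have h5 : ((n - 1 : ℕ) : ℝ) = n - 1 := by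
      rw [Nat.cast_sub (by omega)]; simp
    have h6 : b = n := by
      have : (n : ℝ) ≤ b := by rw [hx, mul_one] at h2; exact h2
      exact le_antisymm hb (by exact_mod_cast this)
    rw [Pool.Agent.H57.Q1.polyline_piece (i := n - 1) (by omega) (by rw [hx, h5]; linarith)
      (by rw [hx, h5]; linarith), show n - 1 + 1 = n by omega, hx, h5]
    have e2 : p (n - 1) + (((n : ℝ) * 1 - (n - 1) : ℝ) : ℂ) * (p n - p (n - 1)) = p n := by
      push_cast; ring
    rw [e2]
    refine h n ?_ h6.ge
    rw [hx, mul_one] at h1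
    exact_mod_cast h1

/-- A polygonal line is close to the polygonal line through some of its vertices. -/
theorem dist_coarse {p : ℕ → ℂ} {n J : ℕ} {i : ℕ → ℕ} (h0 : i 0 = 0) (hJ : i J = n) (hJ0 : 0 < J)
    (hi : ∀ j < J, i j < i (j + 1)) {ε : ℝ}
    (h : ∀ j < J, ∀ k, i j ≤ k → k ≤ i (j + 1) → dist (p k) (p (i j)) ≤ ε) :
    dist (Curve.mk (polyline p n)) (Curve.mk (polyline (fun j => p (i j)) J)) ≤ 8 * ε := by
  have hmono : ∀ j k, j ≤ k → k ≤ J → i j ≤ i k := by
    intro j k hjk
    induction k, hjk using Nat.le_induction with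
    | base => intro _; exact le_rfl
    | succ k _ ih =>
      intro hk
      exact (ih (by omega)).trans (hi k (by omega)).le
  have hle : ∀ j ≤ J, i j ≤ n := fun j hj => hJ ▸ hmono j J hj le_rfl
  have hn : 0 < n := by
    have h1 := hi 0 hJ0
    have h2 := hle 1 hJ0
    simp only [zero_add] at h1
    omega
  have hn' : (0 : ℝ) < n := by exact_mod_cast hn
  have hJ' : (0 : ℝ) < J := by exact_mod_cast hJ0
  have hε : 0 ≤ ε := dist_nonneg.trans (h 0 hJ0 (i 0) le_rfl (hi 0 hJ0).le)
  let t : ℕ → I := fun j => ⟨min 1 ((i j : ℝ) / n), ⟨le_min zero_le_one (by positivity), min_le_left _ _⟩⟩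
  let s : ℕ → I := fun j => ⟨min 1 ((j : ℝ) / J), ⟨le_min zero_le_one (by positivity), min_le_left _ _⟩⟩
  have ht : ∀ j ≤ J, (n : ℝ) * t j = i j := by
    intro j hj
    have h1 : (i j : ℝ) / n ≤ 1 := by
      rw [div_le_one hn']; exact_mod_cast hle j hj
    change (n : ℝ) * min 1 ((i j : ℝ) / n) = i j
    rw [min_eq_right h1]
    field_simp
  have hs : ∀ j ≤ J, (J : ℝ) * s j = j := by
    intro j hj
    have h1 : (j : ℝ) / J ≤ 1 := by
      rw [div_le_one hJ']; exact_mod_cast hj
    change (J : ℝ) * min 1 ((j : ℝ) / J) = j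
    rw [min_eq_right h1]
    field_simp
  have key := Pool.Agent.H57.Q1.cdist_le_of_labels (g := polyline p n)
    (h := polyline (fun j => p (i j)) J) (ε := 2 * ε) (m := J) (t := t) (s := s) hJ0
    ?_ ?_ ?_ ?_ ?_ ?_ ?_ ?_ (l := fun j => p (i j)) ?_ ?_
  · rw [Curve.dist_mk]
    linarith
  · apply Subtype.ext
    have h1 := ht 0 (Nat.zero_le _)
    rw [h0, Nat.cast_zero] at h1
    rcases mul_eq_zero.1 h1 with h2 | h2
    · linarith
    · exact h2
  · apply Subtype.ext
    have h1 := ht J le_rfl
    rw [hJ] at h1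
    have h2 : (n : ℝ) * ((t J : ℝ) - 1) = 0 := by linarith
    rcases mul_eq_zero.1 h2 with h3 | h3
    · linarith
    · change (t J : ℝ) = 1
      linarith
  · intro j hj
    rw [← Subtype.coe_lt_coe]
    have h1 := ht j hj.le
    have h2 := ht (j + 1) hj
    have h3 : (i j : ℝ) < i (j + 1) := by exact_mod_cast hi j hj
    by_contra hcon
    push Not at hcon
    nlinarith
  · intro j hj x y hx1 hx2 hy1 hy2
    have hb := hle (j + 1) hj
    have h1 := ht j hj.le
    have h2 := ht (j + 1) hj
    rw [← Subtype.coe_le_coe] at hx1 hx2 hy1 hy2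
    have e1 := polyline_mem (p := p) hn hb (c := p (i j)) (ε := ε)
      (fun k hk1 hk2 => h j hj k hk1 hk2) (x := x) (by nlinarith) (by nlinarith)
    have e2 := polyline_mem (p := p) hn hb (c := p (i j)) (ε := ε)
      (fun k hk1 hk2 => h j hj k hk1 hk2) (x := y) (by nlinarith) (by nlinarith)
    have := dist_triangle_right ((polyline p n).toC x) ((polyline p n).toC y) (p (i j))
    linarith
  · apply Subtype.ext
    have h1 := hs 0 (Nat.zero_le _)
    rw [Nat.cast_zero] at h1
    rcases mul_eq_zero.1 h1 with h2 | h2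
    · linarith
    · exact h2
  · apply Subtype.ext
    have h1 := hs J le_rfl
    have h2 : (J : ℝ) * ((s J : ℝ) - 1) = 0 := by linarith
    rcases mul_eq_zero.1 h2 with h3 | h3
    · linarith
    · change (s J : ℝ) = 1
      linarith
  · intro j hj
    rw [← Subtype.coe_lt_coe]
    have h1 := hs j hj.le
    have h2 := hs (j + 1) hj
    push_cast at h2
    by_contra hcon
    push Not at hcon
    nlinarith
  · intro j hj x y hx1 hx2 hy1 hy2
    have h1 := hs j hj.le
    have h2 := hs (j + 1) hj
    rw [← Subtype.coe_le_coe] at hx1 hx2 hy1 hy2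
    have hball : ∀ k, j ≤ k → k ≤ j + 1 → dist (p (i k)) (p (i j)) ≤ ε := by
      intro k hk1 hk2
      rcases (by omega : k = j ∨ k = j + 1) with rfl | rfl
      · rw [dist_self]; exact hε
      · exact h j hj _ (hi j hj).le le_rfl
    have e1 := polyline_mem (p := fun j => p (i j)) (n := J) (a := j) (b := j + 1) hJ0 hj
      (c := p (i j)) (ε := ε) hball (x := x) (by nlinarith) (by nlinarith)
    have e2 := polyline_mem (p := fun j => p (i j)) (n := J) (a := j) (b := j + 1) hJ0 hj
      (c := p (i j)) (ε := ε) hball (x := y) (by nlinarith) (by nlinarith)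
    have := dist_triangle_right ((polyline (fun j => p (i j)) J).toC x)
      ((polyline (fun j => p (i j)) J).toC y) (p (i j))
    linarith
  · intro j hj
    have hb := hle (j + 1) hj
    have h1 := ht j hj.le
    have := polyline_mem (p := p) hn (hle j hj.le) (a := i j) (c := p (i j)) (ε := ε)
      (fun k hk1 hk2 => h j hj k hk1 (hk2.trans (hi j hj).le)) (x := t j) h1.ge h1.le
    linarith
  · intro j hj
    have h1 := hs j hj.le
    have := polyline_mem (p := fun j => p (i j)) (n := J) (a := j) (b := j) hJ0 hj.le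
      (c := p (i j)) (ε := ε) (fun k hk1 hk2 => by
        rw [show k = j by omega, dist_self]; exact hε) (x := s j) h1.ge h1.le
    linarith

end Pool.Agent.H81.Q1
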