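import Pool.Agent.H81.Q1.Curve

set_option autoImplicit false
open Set Topology MeasureTheory Filter
open scoped unitInterval

/-! Discrete domains with Dobrushin boundary condition, the exploration path of critical bond
percolation and the statement of Q1. -/

namespace Pool.Agent.H81.Q1

/-! ### Jordan domains -/

/-- `D` is a bounded Jordan domain: a bounded connected open set whose boundary is the image of a
Jordan curve. -/
def IsJordanDomain (D : Set ℂ) : Prop :=
  IsOpen D ∧ IsConnected D ∧ Bornology.IsBounded D ∧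
    ∃ J : Circle → ℂ, Continuous J ∧ Function.Injective J ∧ frontier D = Set.range J

/-- `A₁` and `A₂` are the two closed arcs of the Jordan curve `frontier D` between the distinct
points `a` and `b`. -/
structure IsArcs (D : Set ℂ) (a b : ℂ) (A₁ A₂ : Set ℂ) : Prop where
  closed₁ : IsClosed A₁
  closed₂ : IsClosed A₂
  conn₁ : IsConnected A₁
  conn₂ : IsConnected A₂
  union : A₁ ∪ A₂ = frontier D
  inter : A₁ ∩ A₂ = {a, b}

/-! ### The lattice -/

/-- Nearest-neighbour graph of `ℤ²`. -/
def Z2 : SimpleGraph (ℤ × ℤ) where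
  Adj u v := |u.1 - v.1| + |u.2 - v.2| = 1
  symm := ⟨fun u v h => by rw [abs_sub_comm v.1, abs_sub_comm v.2]; exact h⟩
  loopless := ⟨fun u h => by simp at h⟩

/-- The point of `δℤ²` with index `v`. -/
def pt (δ : ℝ) (v : ℤ × ℤ) : ℂ := ⟨δ * v.1, δ * v.2⟩

/-- The four directions: `0` east, `1` north, `2` west, `3` south. -/
def dir (q : ZMod 4) : ℤ × ℤ :=
  if q = 0 then (1, 0) else if q = 1 then (0, 1) else if q = 2 then (-1, 0) else (0, -1)

/-- A corner `(v, q)`: the vertex `v` together with the unit square at `v` between the directions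
`q` and `q + 1`. The corners are the edges of the medial lattice: `(v, q)` joins the midpoints of
the two edges of `ℤ²` which leave `v` in the directions `q` and `q + 1`. -/
abbrev Corner := (ℤ × ℤ) × ZMod 4

/-- The edge of `ℤ²` leaving the vertex of the corner `(v, q)` in direction `q`. -/
def Corner.edge (c : Corner) : Sym2 (ℤ × ℤ) := s(c.1, c.1 + dir c.2)

/-- The face (unit square, represented by its lower left vertex) of the corner `(v, q)`. -/
def Corner.face (c : Corner) : ℤ × ℤ :=
  if c.2 = 0 then c.1 else if c.2 = 1 then (c.1.1 - 1, c.1.2)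
  else if c.2 = 2 then (c.1.1 - 1, c.1.2 - 1) else (c.1.1, c.1.2 - 1)

/-- One step of an interface with open edges on its right: at the corner `(v, q)` (in which the
interface runs clockwise around `v`, from the edge in direction `q + 1` to the edge in direction
`q`) the interface meets the edge in direction `q`. If this edge is closed, it continues around
`v`; if it is open, it follows the edge to its other end. -/
noncomputable def next (ω : Set (Sym2 (ℤ × ℤ))) (c : Corner) : Corner :=
  open Classical in if c.edge ∈ ω then (c.1 + dir c.2, c.2 + 1) else (c.1, c.2 - 1)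

/-- The nearest-neighbour edges with both ends in `V`. -/
def edges (V : Set (ℤ × ℤ)) : Set (Sym2 (ℤ × ℤ)) := {e | e ∈ Z2.edgeSet ∧ ∀ v ∈ e, v ∈ V}

/-- Two neighbouring faces whose common edge is not in `E`. -/
def faceStep (E : Set (Sym2 (ℤ × ℤ))) (f g : ℤ × ℤ) : Prop :=
  (g = (f.1 + 1, f.2) ∧ s((f.1 + 1, f.2), (f.1 + 1, f.2 + 1)) ∉ E) ∨
  (g = (f.1 - 1, f.2) ∧ s((f.1, f.2), (f.1, f.2 + 1)) ∉ E) ∨
  (g = (f.1, f.2 + 1) ∧ s((f.1, f.2 + 1), (f.1 + 1, f.2 + 1)) ∉ E) ∨
  (g = (f.1, f.2 - 1) ∧ s((f.1, f.2), (f.1 + 1, f.2)) ∉ E)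

/-- The face of the corner `c` is joined to infinity by a chain of faces crossing no edge of
`E`: `c` is a corner of the outer boundary. -/
def IsOuter (E : Set (Sym2 (ℤ × ℤ))) (c : Corner) : Prop :=
  ∀ n : ℤ, ∃ g, Relation.ReflTransGen (faceStep E) c.face g ∧ n ≤ |g.1| + |g.2|

/-! ### Discrete domains -/

/-- A (simply connected) discrete domain with two marked boundary corners: a finite connected
subgraph `(V, E)` of `ℤ²` without holes and two corners of its outer boundary at distinct vertices,
`α` (where the exploration path starts, `a_δ = α.1`) and `β` (where it ends, `b_δ = β.1`). -/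
structure DDomain where
  /-- vertices -/
  V : Set (ℤ × ℤ)
  /-- edges -/
  E : Set (Sym2 (ℤ × ℤ))
  finV : V.Finite
  subE : E ⊆ edges V
  conn : ∀ u ∈ V, ∀ v ∈ V, Relation.ReflTransGen (fun x y => s(x, y) ∈ E) u v
  /-- no holes: every edge of `ℤ²` at a vertex of the domain which is not an edge of the domain lies
  on the outer boundary -/
  noHole : ∀ c : Corner, c.1 ∈ V → c.edge ∉ E → IsOuter E c
  /-- corner at `a_δ` -/
  α : Corner
  /-- corner at `b_δ` -/
  β : Corner
  memα : α.1 ∈ V
  memβ : β.1 ∈ V
  outα : IsOuter E α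
  outβ : IsOuter E β
  ne : α.1 ≠ β.1

namespace DDomain
variable (X : DDomain)

/-- The corners of the outer boundary contour from `β` to `α`, clockwise (the domain is on the
right), i.e. along the counterclockwise boundary arc from `a_δ` to `b_δ`. -/
def wired : Set Corner :=
  {c | ∃ i : ℕ, (∀ j < i, (next X.E)^[j] X.β ≠ X.α) ∧ c = (next X.E)^[i] X.β}

/-- The corners of the outer boundary contour from `α` to `β`, clockwise. -/
def dual : Set Corner :=
  {c | ∃ i : ℕ, (∀ j < i, (next X.E)^[j] X.α ≠ X.β) ∧ c = (next X.E)^[i] X.α}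

/-- The edges of the counterclockwise boundary arc from `a_δ` to `b_δ` (declared open):
the edges of the domain met by the outer contour between `β` and `α`. -/
def arc : Set (Sym2 (ℤ × ℤ)) := {e | e ∈ X.E ∧ ∃ c ∈ X.wired, c ≠ X.α ∧ e = c.edge}

/-- The remaining edges, which are sampled at `p = 1/2`. -/
def free : Set (Sym2 (ℤ × ℤ)) := X.E \ X.arc

/-- The corners of the exploration path in the configuration `ω ⊆ free`: all edges of the
counterclockwise arc are open, and the edges of `ℤ²` which are not edges of the domain are closed,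
so that the dual edges along the complementary arc are dual-open. -/
noncomputable def corner (ω : Set (Sym2 (ℤ × ℤ))) (i : ℕ) : Corner := (next (ω ∪ X.arc))^[i] X.α

/-- Number of steps of the exploration path: it stops at the corner `β`. -/
noncomputable def len (ω : Set (Sym2 (ℤ × ℤ))) : ℕ := sInf {i | X.corner ω i = X.β}

/-- Midpoint of the edge leaving `v` in direction `q`, in the plane, at mesh `δ`. -/
noncomputable def mid (δ : ℝ) (v : ℤ × ℤ) (q : ZMod 4) : ℂ := (pt δ v + pt δ (v + dir q)) / 2

/-- The vertices of the medial lattice visited by the exploration path, at mesh `δ`: the midpoint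
before the first corner, then the midpoint after every corner. -/
noncomputable def vertex (δ : ℝ) (ω : Set (Sym2 (ℤ × ℤ))) : ℕ → ℂ
  | 0 => mid δ X.α.1 (X.α.2 + 1)
  | i + 1 => mid δ (X.corner ω i).1 (X.corner ω i).2

end DDomain

/-- The polygonal line through `p 0, p 1, …, p n` (constant speed in the index):
`t ↦ p 0 + ∑_{i<n} min 1 (max 0 (n t - i)) (p (i+1) - p i)`. -/
noncomputable def polyline (p : ℕ → ℂ) (n : ℕ) : PCurve :=
  ⟨⟨fun t => p 0 + ∑ i ∈ Finset.range n,
      ((min 1 (max 0 ((n : ℝ) * (t : ℝ) - i)) : ℝ) : ℂ) * (p (i + 1) - p i), by fun_prop⟩⟩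

/-- The uniform probability measure on the subsets of a finite set `E` (each element is chosen with
probability `1/2`, independently), as a distribution on sets. -/
noncomputable def halfPMF {ι : Type} (E : Set ι) (hE : E.Finite) : PMF (Set ι) :=
  (PMF.uniformOfFinset (open Classical in hE.toFinset.powerset)
    ⟨∅, by simp⟩).map (fun s : Finset ι => (s : Set ι))

lemma finite_edges {V : Set (ℤ × ℤ)} (hV : V.Finite) : (edges V).Finite := by
  have h1 : edges V ⊆ (fun p : (ℤ × ℤ) × (ℤ × ℤ) => s(p.1, p.2)) '' (V ×ˢ V) := by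
    intro e he
    induction e using Sym2.ind with
    | _ u v =>
      exact ⟨(u, v), ⟨he.2 u (by simp), he.2 v (by simp)⟩, rfl⟩
  exact ((hV.prod hV).image _).subset h1

namespace DDomain
variable (X : DDomain)

lemma finE : X.E.Finite := (finite_edges X.finV).subset X.subE

lemma arc_sub : X.arc ⊆ X.E := fun _ h => h.1

lemma free_sub : X.free ⊆ X.E := fun _ h => h.1

lemma finite_free : X.free.Finite := X.finE.subset X.free_sub

lemma finite_arc : X.arc.Finite := X.finE.subset X.arc_sub

/-- **The exploration path** `γ_δ` as a curve. -/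
noncomputable def explore (δ : ℝ) (ω : Set (Sym2 (ℤ × ℤ))) : Curve :=
  Curve.mk (polyline (X.vertex δ ω) (X.len ω + 1))

/-- **The law of `γ_δ`**: image of the product of fair coins on the free edges. -/
noncomputable def law (δ : ℝ) : ProbabilityMeasure Curve :=
  ⟨((halfPMF X.free X.finite_free).map (X.explore δ)).toMeasure, inferInstance⟩

end DDomain

/-! ### Approximations of a Jordan domain and the statement of Q1 -/

/-- **Approximating sequences** of `(D; a, b)`: meshes `δ n → 0` and discrete domains `X n` which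
fill every compact part of `D`, are contained in every neighbourhood of the closure of `D`, whose
marked vertices converge to `a` and `b`, and whose two boundary arcs converge to the two boundary
arcs `A₁` (wired) and `A₂` (dual) of `D`. -/
structure Approx (D : Set ℂ) (a b : ℂ) (A₁ A₂ : Set ℂ) where
  δ : ℕ → ℝ
  X : ℕ → DDomain
  pos : ∀ n, 0 < δ n
  lim : Tendsto δ atTop (𝓝 0)
  /-- every compact subset of `D` is filled by `X n` -/
  fill : ∀ K : Set ℂ, IsCompact K → K ⊆ D → ∀ᶠ n in atTop,
    (∀ v, pt (δ n) v ∈ K → v ∈ (X n).V) ∧ edges {v | pt (δ n) v ∈ K} ⊆ (X n).E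
  /-- `X n` is contained in every neighbourhood of `D` -/
  sub : ∀ ε > 0, ∀ᶠ n in atTop, ∀ v ∈ (X n).V, Metric.infDist (pt (δ n) v) D < ε
  limα : Tendsto (fun n => pt (δ n) (X n).α.1) atTop (𝓝 a)
  limβ : Tendsto (fun n => pt (δ n) (X n).β.1) atTop (𝓝 b)
  wired : ∀ ε > 0, ∀ᶠ n in atTop, ∀ c ∈ (X n).wired, Metric.infDist (pt (δ n) c.1) A₁ < ε
  dual : ∀ ε > 0, ∀ᶠ n in atTop, ∀ c ∈ (X n).dual, Metric.infDist (pt (δ n) c.1) A₂ < ε

lemma Approx.bounded {D : Set ℂ} {a b : ℂ} {A₁ A₂ : Set ℂ} (hD : Bornology.IsBounded D)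
    (hne : D.Nonempty) (A : Approx D a b A₁ A₂) :
    ∃ R : ℝ, ∀ n, ∀ v ∈ (A.X n).V, ‖pt (A.δ n) v‖ ≤ R := by
  obtain ⟨R1, hR1⟩ := hD.subset_closedBall 0
  obtain ⟨N, hN⟩ := eventually_atTop.1 (A.sub 1 one_pos)
  have h1 : ∀ n, ∃ R : ℝ, ∀ v ∈ (A.X n).V, ‖pt (A.δ n) v‖ ≤ R := by
    intro n
    obtain ⟨R, hR⟩ := ((A.X n).finV.image fun v => ‖pt (A.δ n) v‖).bddAbove
    exact ⟨R, fun v hv => hR ⟨v, hv, rfl⟩⟩
  choose R hR using h1
  refine ⟨max (R1 + 1) (∑ n ∈ Finset.range N, |R n|), fun n v hv => ?_⟩
  rcases lt_or_ge n N with h | h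
  · refine ((hR n v hv).trans (le_abs_self _)).trans (le_trans ?_ (le_max_right _ _))
    exact Finset.single_le_sum (f := fun n => |R n|) (fun i _ => abs_nonneg _)
      (Finset.mem_range.2 h)
  · refine le_trans ?_ (le_max_left _ _)
    obtain ⟨y, hy, hy'⟩ := (Metric.infDist_lt_iff hne).1 (hN n h v hv)
    have h2 := hR1 hy
    rw [Metric.mem_closedBall, dist_zero_right] at h2
    rw [dist_eq_norm] at hy'
    have h3 := norm_add_le (pt (A.δ n) v - y) y
    rw [sub_add_cancel] at h3
    linarith

/-- The laws of the exploration paths along an approximating sequence. -/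
noncomputable def Approx.law {D : Set ℂ} {a b : ℂ} {A₁ A₂ : Set ℂ} (A : Approx D a b A₁ A₂)
    (n : ℕ) : ProbabilityMeasure Curve := (A.X n).law (A.δ n)

/-- **Q1**: the exploration paths converge in law. For every bounded Jordan domain `D`, distinct
boundary points `a, b` and the two boundary arcs `A₁, A₂` between them there is a probability
measure `μ` on the space of curves such that along every approximating sequence the laws of the
exploration paths converge weakly to `μ`. -/
def Q1 : Prop :=
  ∀ (D : Set ℂ), IsJordanDomain D → ∀ (a b : ℂ) (A₁ A₂ : Set ℂ), a ≠ b → IsArcs D a b A₁ A₂ →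
    ∃ μ : ProbabilityMeasure Curve, ∀ A : Approx D a b A₁ A₂, Tendsto A.law atTop (𝓝 μ)

end Pool.Agent.H81.Q1
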