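import Mathlib

set_option autoImplicit false
open Set Topology MeasureTheory
open scoped unitInterval

/-! Curves in the plane modulo reparametrisation, with the distance
`d(g1, g2) = inf over increasing homeomorphisms u1, u2 of [0,1] of sup_t |g1 (u1 t) - g2 (u2 t)|`. -/

namespace Pool.Agent.H81.Q1

/-- Parametrised curves: continuous maps `[0,1] → ℂ`. -/
structure PCurve where
  /-- the underlying continuous map -/
  toC : C(I, ℂ)

/-- Increasing reparametrisations of `[0,1]`. -/
abbrev Rep := I ≃o I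

/-- `sup_t |g1 (u1 t) - g2 (u2 t)|`. -/
noncomputable def supd (g1 g2 : PCurve) (u : Rep × Rep) : ℝ :=
  ⨆ t : I, dist (g1.toC (u.1 t)) (g2.toC (u.2 t))

/-- The distance `d` of the problem. -/
noncomputable def cdist (g1 g2 : PCurve) : ℝ := ⨅ u : Rep × Rep, supd g1 g2 u

lemma bdd_range (f g : C(I, ℂ)) : BddAbove (Set.range fun t : I => dist (f t) (g t)) := by
  have : Continuous fun t : I => dist (f t) (g t) := by fun_prop
  exact (isCompact_range this).bddAbove

/-- Reparametrised curve. -/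
noncomputable def rep (g : C(I, ℂ)) (u : Rep) : C(I, ℂ) := ⟨fun t => g (u t), g.continuous.comp u.continuous⟩

@[simp] lemma rep_apply (g : C(I, ℂ)) (u : Rep) (t : I) : rep g u t = g (u t) := rfl

lemma supd_eq (g1 g2 : PCurve) (u : Rep × Rep) :
    supd g1 g2 u = dist (rep g1.toC u.1) (rep g2.toC u.2) := by
  rw [ContinuousMap.dist_eq_iSup]
  rfl

lemma supd_nonneg (g1 g2 : PCurve) (u : Rep × Rep) : 0 ≤ supd g1 g2 u := by
  rw [supd_eq]; exact dist_nonneg

lemma bdd_below (g1 g2 : PCurve) : BddBelow (Set.range fun u : Rep × Rep => supd g1 g2 u) :=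
  ⟨0, by rintro _ ⟨u, rfl⟩; exact supd_nonneg g1 g2 u⟩

lemma supd_rep (g1 g2 : PCurve) (u : Rep × Rep) (w : Rep) :
    supd g1 g2 (w.trans u.1, w.trans u.2) = supd g1 g2 u := by
  unfold supd
  exact (w.toEquiv.iSup_comp (g := fun t => dist (g1.toC (u.1 t)) (g2.toC (u.2 t))))

lemma cdist_self (g : PCurve) : cdist g g = 0 := by
  apply le_antisymm
  · refine (ciInf_le (bdd_below g g) (OrderIso.refl I, OrderIso.refl I)).trans ?_
    rw [supd_eq]; simp
  · exact le_ciInf fun u => supd_nonneg g g u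

lemma cdist_comm (g1 g2 : PCurve) : cdist g1 g2 = cdist g2 g1 := by
  unfold cdist
  refine (Equiv.prodComm Rep Rep).iInf_congr ?_
  intro u
  simp only [Equiv.prodComm_apply, supd_eq, Prod.fst_swap, Prod.snd_swap]
  exact dist_comm _ _

lemma cdist_triangle (g1 g2 g3 : PCurve) : cdist g1 g3 ≤ cdist g1 g2 + cdist g2 g3 := by
  refine le_of_forall_pos_le_add fun ε hε => ?_
  obtain ⟨u, hu⟩ := exists_lt_of_ciInf_lt (show cdist g1 g2 < cdist g1 g2 + ε / 2 by linarith)
  obtain ⟨v, hv⟩ := exists_lt_of_ciInf_lt (show cdist g2 g3 < cdist g2 g3 + ε / 2 by linarith)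
  -- reparametrise so that the middle curve is used with the same parametrisation
  set w : Rep := u.2.trans v.1.symm
  have h1 : supd g2 g3 (w.trans v.1, w.trans v.2) = supd g2 g3 v := supd_rep g2 g3 v w
  have h2 : w.trans v.1 = u.2 := by
    ext t; simp [w]
  have h3 : supd g1 g3 (u.1, w.trans v.2) ≤ supd g1 g2 u + supd g2 g3 v := by
    rw [← h1, supd_eq, supd_eq, supd_eq, h2]
    exact dist_triangle _ _ _
  have h4 : cdist g1 g3 ≤ supd g1 g3 (u.1, w.trans v.2) := ciInf_le (bdd_below g1 g3) _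
  linarith

noncomputable instance : PseudoMetricSpace PCurve where
  dist := cdist
  dist_self := cdist_self
  dist_comm := cdist_comm
  dist_triangle := cdist_triangle

/-- **The space of curves** modulo increasing reparametrisation: the metric quotient of the
parametrised curves by `d = 0`. -/
def Curve : Type := SeparationQuotient PCurve

noncomputable instance : MetricSpace Curve := inferInstanceAs (MetricSpace (SeparationQuotient PCurve))

/-- The curve of a parametrised curve. -/
noncomputable def Curve.mk (g : PCurve) : Curve := SeparationQuotient.mk g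

lemma Curve.dist_mk (g1 g2 : PCurve) : dist (Curve.mk g1) (Curve.mk g2) = cdist g1 g2 :=
  SeparationQuotient.dist_mk g1 g2

noncomputable instance : MeasurableSpace Curve := borel Curve
instance : BorelSpace Curve := ⟨rfl⟩

lemma cdist_le (g1 g2 : PCurve) : cdist g1 g2 ≤ dist g1.toC g2.toC := by
  refine (ciInf_le (bdd_below g1 g2) (OrderIso.refl I, OrderIso.refl I)).trans (le_of_eq ?_)
  rw [supd_eq]; rfl

/-- The projection from continuous functions is continuous. -/
lemma continuous_mk : Continuous fun g : C(I, ℂ) => Curve.mk ⟨g⟩ := by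
  have : LipschitzWith 1 fun g : C(I, ℂ) => Curve.mk ⟨g⟩ := by
    refine LipschitzWith.of_dist_le_mul fun g h => ?_
    rw [Curve.dist_mk]
    simpa using cdist_le ⟨g⟩ ⟨h⟩
  exact this.continuous

lemma surjective_mk : Function.Surjective fun g : C(I, ℂ) => Curve.mk ⟨g⟩ := by
  intro c
  obtain ⟨g, rfl⟩ := SeparationQuotient.surjective_mk c
  exact ⟨g.toC, rfl⟩

instance : TopologicalSpace.SeparableSpace Curve :=
  surjective_mk.denseRange.separableSpace continuous_mk

lemma exists_rep {g h : C(I, ℂ)} {r : ℝ} (hr : cdist ⟨g⟩ ⟨h⟩ < r) :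
    ∃ u : Rep, dist g (rep h u) < r := by
  obtain ⟨u, hu⟩ := exists_lt_of_ciInf_lt hr
  refine ⟨u.1.symm.trans u.2, ?_⟩
  have h1 := supd_rep ⟨g⟩ ⟨h⟩ u u.1.symm
  rw [supd_eq] at h1
  have h2 : rep g (u.1.symm.trans u.1) = g := by ext t; simp
  simp only [h2] at h1
  rw [h1]; exact hu

lemma rep_mk (h : C(I, ℂ)) (u : Rep) : Curve.mk ⟨rep h u⟩ = Curve.mk ⟨h⟩ := by
  rw [← dist_eq_zero, Curve.dist_mk]
  apply le_antisymm
  · refine (ciInf_le (bdd_below _ _) (OrderIso.refl I, u)).trans ?_
    rw [supd_eq]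
    simp only
    have : rep (rep h u) (OrderIso.refl I) = rep h u := rfl
    rw [this, dist_self]
  · exact le_ciInf fun v => supd_nonneg _ _ v

instance : CompleteSpace Curve := by
  refine Metric.complete_of_convergent_controlled_sequences (fun n => (1 / 2 : ℝ) ^ n)
    (fun n => by positivity) fun c hc => ?_
  -- choose parametrisations one after the other
  have step : ∀ n (g : {g : C(I, ℂ) // Curve.mk ⟨g⟩ = c n}),
      ∃ h : {h : C(I, ℂ) // Curve.mk ⟨h⟩ = c (n + 1)}, dist g.1 h.1 < (1 / 2 : ℝ) ^ n := by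
    rintro n ⟨g, hg⟩
    obtain ⟨h, hh⟩ := surjective_mk (c (n + 1))
    simp only at hh
    have h1 : cdist ⟨g⟩ ⟨h⟩ < (1 / 2 : ℝ) ^ n := by
      rw [← Curve.dist_mk, hg, hh]
      exact hc n n (n + 1) le_rfl (Nat.le_succ n)
    obtain ⟨u, hu⟩ := exists_rep h1
    exact ⟨⟨rep h u, by rw [rep_mk, hh]⟩, hu⟩
  obtain ⟨g0, hg0⟩ := surjective_mk (c 0)
  let G : ∀ n, {g : C(I, ℂ) // Curve.mk ⟨g⟩ = c n} := fun n =>
    Nat.rec ⟨g0, hg0⟩ (fun n g => (step n g).choose) n
  have hG : ∀ n, dist (G n).1 (G (n + 1)).1 < (1 / 2 : ℝ) ^ n := fun n =>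
    (step n (G n)).choose_spec
  have hcs : CauchySeq fun n => (G n).1 :=
    cauchySeq_of_le_geometric (1 / 2) 1 (by norm_num) fun n => by simpa using (hG n).le
  obtain ⟨g, hg⟩ := cauchySeq_tendsto_of_complete hcs
  refine ⟨Curve.mk ⟨g⟩, ?_⟩
  have h2 := (continuous_mk.tendsto g).comp hg
  refine h2.congr fun n => ?_
  exact (G n).2

end Pool.Agent.H81.Q1
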