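import Pool.Agent.H81.Q1.Exploration

set_option autoImplicit false
open Set Topology MeasureTheory Filter
open scoped unitInterval

/-! Soft reduction of Q1: tightness + uniqueness of the subsequential limit. -/

namespace Pool.Agent.H81.Q1

variable {D : Set ℂ} {a b : ℂ} {A₁ A₂ : Set ℂ}

/-- Subsequence of an approximating sequence. -/
def Approx.subseq (A : Approx D a b A₁ A₂) (k : ℕ → ℕ) (hk : Tendsto k atTop atTop) :
    Approx D a b A₁ A₂ where
  δ := fun n => A.δ (k n)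
  X := fun n => A.X (k n)
  pos := fun n => A.pos (k n)
  lim := A.lim.comp hk
  fill := fun K hK hKD => hk.eventually (A.fill K hK hKD)
  sub := fun ε hε => hk.eventually (A.sub ε hε)
  limα := A.limα.comp hk
  limβ := A.limβ.comp hk
  wired := fun ε hε => hk.eventually (A.wired ε hε)
  dual := fun ε hε => hk.eventually (A.dual ε hε)

theorem Q1_of
    (ht : ∀ (D : Set ℂ), IsJordanDomain D → ∀ (a b : ℂ) (A₁ A₂ : Set ℂ), a ≠ b →
      IsArcs D a b A₁ A₂ → ∀ A : Approx D a b A₁ A₂,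
        IsTightMeasureSet {((A.law n : ProbabilityMeasure Curve) : Measure Curve) | n})
    (hu : ∀ (D : Set ℂ), IsJordanDomain D → ∀ (a b : ℂ) (A₁ A₂ : Set ℂ), a ≠ b →
      IsArcs D a b A₁ A₂ → ∀ (A B : Approx D a b A₁ A₂) (ν ν' : ProbabilityMeasure Curve),
        Tendsto A.law atTop (𝓝 ν) → Tendsto B.law atTop (𝓝 ν') → ν = ν') :
    Q1 := by
  intro D hD a b A₁ A₂ hab hA
  -- every approximating sequence has a convergent subsequence
  have hsub : ∀ A : Approx D a b A₁ A₂, ∃ (ν : ProbabilityMeasure Curve) (k : ℕ → ℕ),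
      StrictMono k ∧ Tendsto (fun n => A.law (k n)) atTop (𝓝 ν) := by
    intro A
    have h1 : IsCompact (closure (Set.range A.law)) := by
      refine isCompact_closure_of_isTightMeasureSet ?_
      convert ht D hD a b A₁ A₂ hab hA A using 1
      ext μ
      simp only [Set.mem_ofPred_eq, Set.mem_range]
      constructor
      · rintro ⟨x, ⟨n, rfl⟩, rfl⟩; exact ⟨n, rfl⟩
      · rintro ⟨n, rfl⟩; exact ⟨_, ⟨n, rfl⟩, rfl⟩
    obtain ⟨ν, -, k, hk, hν⟩ := h1.tendsto_subseq (x := A.law) (fun n => subset_closure ⟨n, rfl⟩)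
    exact ⟨ν, k, hk, hν⟩
  by_cases hne : Nonempty (Approx D a b A₁ A₂)
  · obtain ⟨A⟩ := hne
    obtain ⟨ν, k, hk, hν⟩ := hsub A
    refine ⟨ν, fun B => ?_⟩
    refine tendsto_of_subseq_tendsto (x := B.law) fun m hm => ?_
    obtain ⟨ν', l, hl, hν'⟩ := hsub (B.subseq m hm)
    refine ⟨l, ?_⟩
    have h4 : ν = ν' := hu D hD a b A₁ A₂ hab hA (A.subseq k hk.tendsto_atTop)
      ((B.subseq m hm).subseq l hl.tendsto_atTop) ν ν' hν hν'
    rw [h4]; exact hν'
  · refine ⟨⟨Measure.dirac (Curve.mk ⟨ContinuousMap.const _ 0⟩), inferInstance⟩, ?_⟩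
    intro A
    exact (hne ⟨A⟩).elim

end Pool.Agent.H81.Q1
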